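import Pool.Agent.W605.HD.Haus

/-!
# Hausdorff dimension of sets with thick lines in many directions from a counting inequality
-/

set_option autoImplicit false

open Finset MeasureTheory
open scoped Classical ENNReal NNReal

namespace Pool.Agent.Y674.HK
open Pool.Agent.W46.HD Pool.Agent.W605.HD

/-- the slopes of a point -/
noncomputable def sl (d : ℕ) (x : EuclideanSpace ℝ (Fin (d + 1))) : Fin d → ℝ :=
  fun i => (x 0)⁻¹ * x (Fin.succ i)

theorem measurable_coord {n : ℕ} (i : Fin n) :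
    Measurable (fun x : EuclideanSpace ℝ (Fin n) => x i) :=
  (EuclideanSpace.proj (𝕜 := ℝ) i).continuous.measurable

theorem measurable_sl (d : ℕ) : Measurable (sl d) :=
  measurable_pi_lambda _ fun i => (measurable_coord 0).inv.mul (measurable_coord (Fin.succ i))

/-- the cone over a set of slopes -/
def cone (d : ℕ) (N : Set (Fin d → ℝ)) : Set (EuclideanSpace ℝ (Fin (d + 1))) :=
  {x | x 0 = 0 ∨ sl d x ∈ N}

theorem measurable_cone (d : ℕ) {N : Set (Fin d → ℝ)} (hN : MeasurableSet N) :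
    MeasurableSet (cone d N) :=
  ((measurable_coord 0) (measurableSet_singleton 0)).union ((measurable_sl d) hN)

/-- the cone over a null set is a null set -/
theorem cone_null (d : ℕ) {N : Set (Fin d → ℝ)} (hN : MeasurableSet N) (h0 : volume N = 0) :
    volume (cone d N) = 0 := by
  have h1 := EuclideanSpace.volume_preserving_symm_measurableEquiv_toLp (Fin (d + 1))
  have h2 := volume_preserving_piFinSuccAbove (fun _ : Fin (d + 1) => ℝ) 0
  have h3 := h2.comp h1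
  obtain ⟨S, hS⟩ : ∃ S : Set (ℝ × (Fin d → ℝ)), S = {z | z.1 = 0 ∨ z.1⁻¹ • z.2 ∈ N} := ⟨_, rfl⟩
  have hSm : MeasurableSet S := by
    rw [hS]
    exact (measurable_fst (measurableSet_singleton 0)).union
      ((measurable_fst.inv.smul measurable_snd) hN)
  have h4 : cone d N = (⇑(MeasurableEquiv.piFinSuccAbove (fun _ : Fin (d + 1) => ℝ) 0) ∘
      ⇑(MeasurableEquiv.toLp 2 (Fin (d + 1) → ℝ)).symm) ⁻¹' S := by
    rw [hS]
    ext x
    rfl
  rw [h4, h3.measure_preimage hSm.nullMeasurableSet]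
  have h5 : (volume : Measure (ℝ × (Fin d → ℝ))) = (volume : Measure ℝ).prod volume := rfl
  rw [h5, Measure.measure_prod_null hSm]
  have h6 : ∀ᵐ t : ℝ, t ≠ 0 := by
    rw [ae_iff]
    simp
  filter_upwards [h6] with t ht
  have h7 : Prod.mk t ⁻¹' S = (fun y : Fin d → ℝ => t⁻¹ • y) ⁻¹' N := by
    rw [hS]
    ext y
    simp [ht]
  rw [h7, Measure.addHaar_preimage_smul _ (inv_ne_zero ht), h0, mul_zero]
  rfl

/-- directions with slopes in a null set -/
theorem sphere_null (d : ℕ) (S : Set (Metric.sphere (0 : EuclideanSpace ℝ (Fin (d + 1))) 1))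
    {N : Set (Fin d → ℝ)} (hN : MeasurableSet N) (h0 : volume N = 0)
    (hS : ∀ e ∈ S, (e : EuclideanSpace ℝ (Fin (d + 1))) ∈ cone d N) :
    (volume : Measure (EuclideanSpace ℝ (Fin (d + 1)))).toSphere S = 0 := by
  obtain ⟨S', hS'⟩ : ∃ S' : Set (Metric.sphere (0 : EuclideanSpace ℝ (Fin (d + 1))) 1),
    S' = {e : Metric.sphere (0 : EuclideanSpace ℝ (Fin (d + 1))) 1 |
      (e : EuclideanSpace ℝ (Fin (d + 1))) ∈ cone d N} := ⟨_, rfl⟩
  have hm : MeasurableSet S' := by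
    rw [hS']
    exact measurable_subtype_coe (measurable_cone d hN)
  refine measure_mono_null (t := S') (fun e he => by rw [hS']; exact hS e he) ?_
  rw [Measure.toSphere_apply' _ hm]
  refine mul_eq_zero_of_right _ (measure_mono_null ?_ (cone_null d hN h0))
  rintro x ⟨r, hr, y, ⟨e, he, rfl⟩, rfl⟩
  rw [hS'] at he
  have hr0 : r ≠ 0 := hr.1.ne'
  rcases he with he | he
  · left
    change r * (e : EuclideanSpace ℝ (Fin (d + 1))) 0 = 0
    rw [he, mul_zero]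
  · right
    have : sl d (r • (e : EuclideanSpace ℝ (Fin (d + 1)))) =
        sl d (e : EuclideanSpace ℝ (Fin (d + 1))) := by
      funext i
      simp only [sl, PiLp.smul_apply, smul_eq_mul, mul_inv]
      field_simp
    change sl d (r • (e : EuclideanSpace ℝ (Fin (d + 1)))) ∈ N
    rw [this]
    exact he

/-- a thick line is a thick graph over the first axis -/
theorem thick_line (d : ℕ) (K : Set (EuclideanSpace ℝ (Fin (d + 1))))
    (a e : EuclideanSpace ℝ (Fin (d + 1))) (he : e 0 ≠ 0)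
    (h : 0 < volume {t : ℝ | a + t • e ∈ K}) :
    0 < volume {x : ℝ | pt d x (fun i => (a (Fin.succ i) - a 0 * sl d e i) + x * sl d e i) ∈ K} := by
  obtain ⟨H, hH⟩ : ∃ H : Set ℝ, H = {x : ℝ | pt d x
    (fun i => (a (Fin.succ i) - a 0 * sl d e i) + x * sl d e i) ∈ K} := ⟨_, rfl⟩
  rw [← hH]
  have h1 : {t : ℝ | a + t • e ∈ K} = (fun t : ℝ => t * e 0) ⁻¹' ((fun s : ℝ => a 0 + s) ⁻¹' H) := by
    rw [hH]
    ext t
    have h2 : a + t • e = pt d (a 0 + t * e 0)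
        (fun i => (a (Fin.succ i) - a 0 * sl d e i) + (a 0 + t * e 0) * sl d e i) := by
      ext l
      refine Fin.cases ?_ (fun i => ?_) l
      · simp only [PiLp.add_apply, PiLp.smul_apply, smul_eq_mul, pt_zero]
      · simp only [PiLp.add_apply, PiLp.smul_apply, smul_eq_mul, pt_succ, sl]
        field_simp
        ring
    change a + t • e ∈ K ↔ pt d (a 0 + t * e 0)
        (fun i => (a (Fin.succ i) - a 0 * sl d e i) + (a 0 + t * e 0) * sl d e i) ∈ K
    rw [h2]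
  rw [h1, Real.volume_preimage_mul_right he, measure_preimage_add] at h
  rw [pos_iff_ne_zero]
  intro h0
  rw [h0, mul_zero] at h
  exact lt_irrefl _ h

/-- the shear which subtracts an integral slope -/
noncomputable def shr (d : ℕ) (g : Fin d → ℤ) :
    EuclideanSpace ℝ (Fin (d + 1)) →ₗ[ℝ] EuclideanSpace ℝ (Fin (d + 1)) where
  toFun x := pt d (x 0) (fun i => x (Fin.succ i) - x 0 * g i)
  map_add' x y := by
    ext l
    refine Fin.cases ?_ (fun i => ?_) l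
    · simp only [PiLp.add_apply, pt_zero]
    · simp only [PiLp.add_apply, pt_succ]
      ring
  map_smul' c x := by
    ext l
    refine Fin.cases ?_ (fun i => ?_) l
    · simp only [PiLp.smul_apply, smul_eq_mul, pt_zero, RingHom.id_apply]
    · simp only [PiLp.smul_apply, smul_eq_mul, pt_succ, RingHom.id_apply]
      ring

theorem dimH_shr (d : ℕ) (g : Fin d → ℤ) (K : Set (EuclideanSpace ℝ (Fin (d + 1)))) :
    dimH (shr d g '' K) ≤ dimH K :=
  (LinearMap.toContinuousLinearMap (shr d g)).lipschitz.dimH_image_le K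

/-- Many of the thick lines are graphs over a common interval, with many slopes in the unit cube,
after a shear. -/
theorem slopesG (d : ℕ) (U K : Set (EuclideanSpace ℝ (Fin (d + 1))))
    (hK : ∀ e ∈ U, ‖e‖ = 1 ∧ ∃ a : EuclideanSpace ℝ (Fin (d + 1)),
      0 < volume {t : ℝ | a + t • e ∈ K})
    (hU : (volume : Measure (EuclideanSpace ℝ (Fin (d + 1)))).toSphere
      {e : Metric.sphere (0 : EuclideanSpace ℝ (Fin (d + 1))) 1 |
        (e : EuclideanSpace ℝ (Fin (d + 1))) ∈ U} ≠ 0) :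
    ∃ (g : Fin d → ℤ) (h0 : ℝ) (V : Set (Fin d → ℝ)) (B : (Fin d → ℝ) → Fin d → ℝ) (y2 : ℝ),
      0 < y2 ∧ (∀ v ∈ V, ∀ i, 0 ≤ v i ∧ v i ≤ 1) ∧ volume V ≠ 0 ∧
      ∀ v ∈ V, ENNReal.ofReal y2 ≤ volume {τ : ℝ | (0 ≤ τ ∧ τ < 1) ∧
        pt d (h0 + τ) (fun i => B v i + τ * v i) ∈ shr d g '' K} := by
  obtain ⟨V0, hV0⟩ : ∃ V0 : Set (Fin d → ℝ), V0 = {w | ∃ b : Fin d → ℝ,
    0 < volume {x : ℝ | pt d x (fun i => b i + x * w i) ∈ K}} := ⟨_, rfl⟩
  have hvol : volume V0 ≠ 0 := by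
    intro h0
    apply hU
    refine sphere_null d _ (N := toMeasurable volume V0) (measurableSet_toMeasurable _ _)
      (by rw [measure_toMeasurable, h0]) ?_
    intro e he
    obtain ⟨-, a, ha⟩ := hK _ he
    by_cases he0 : (e : EuclideanSpace ℝ (Fin (d + 1))) 0 = 0
    · exact Or.inl he0
    · right
      apply subset_toMeasurable
      rw [hV0]
      exact ⟨_, thick_line d K a _ he0 ha⟩
  have hex : ∀ w : Fin d → ℝ, ∃ b : Fin d → ℝ, w ∈ V0 →
      0 < volume {x : ℝ | pt d x (fun i => b i + x * w i) ∈ K} := by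
    intro w
    by_cases hw : w ∈ V0
    · rw [hV0] at hw
      obtain ⟨b, hb⟩ := hw
      exact ⟨b, fun _ => hb⟩
    · exact ⟨0, fun h => absurd h hw⟩
  choose b hb using hex
  let Hs : (Fin d → ℝ) → ℤ → Set ℝ := fun w q => {x : ℝ | (q : ℝ) ≤ x ∧ x < q + 1 ∧
    pt d x (fun i => b w i + x * w i) ∈ K}
  let W : (Fin d → ℤ) × ℤ × ℕ → Set (Fin d → ℝ) := fun p => {w | (∀ i, ⌊w i⌋ = p.1 i) ∧
    ((p.2.2 + 1 : ℕ) : ℝ≥0∞)⁻¹ ≤ volume (Hs w p.2.1)}
  have hcov : V0 ⊆ ⋃ p, W p := by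
    intro w hw
    have h1 := hb w hw
    have h2 : ∃ q : ℤ, volume (Hs w q) ≠ 0 := by
      by_contra hcon
      push Not at hcon
      have h3 := measure_iUnion_null hcon
      refine h1.ne' (measure_mono_null ?_ h3)
      intro x hx
      exact Set.mem_iUnion.2 ⟨⌊x⌋, Int.floor_le x, Int.lt_floor_add_one x, hx⟩
    obtain ⟨q, hq⟩ := h2
    obtain ⟨m, hm⟩ := ENNReal.exists_inv_nat_lt hq
    refine Set.mem_iUnion.2 ⟨(fun i => ⌊w i⌋, q, m), fun i => rfl, le_trans ?_ hm.le⟩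
    apply ENNReal.inv_le_inv.2
    exact_mod_cast Nat.le_succ m
  have hex2 : ∃ p, volume (W p) ≠ 0 := by
    by_contra hcon
    push Not at hcon
    exact hvol (measure_mono_null hcov (measure_iUnion_null hcon))
  obtain ⟨⟨g, q, m⟩, hp⟩ := hex2
  refine ⟨g, q, (fun v : Fin d → ℝ => v + fun i => (g i : ℝ)) ⁻¹' W (g, q, m),
    fun v i => b (v + fun i => (g i : ℝ)) i + q * v i, 1 / ((m + 1 : ℕ) : ℝ), by positivity,
    ?_, ?_, ?_⟩
  · rintro v ⟨hv, -⟩ i
    have h1 : (g i : ℝ) ≤ v i + g i ∧ v i + g i < (g i : ℝ) + 1 := Int.floor_eq_iff.1 (hv i)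
    constructor
    · linarith [h1.1]
    · linarith [h1.2]
  · rw [measure_preimage_add_right]
    exact hp
  · rintro v ⟨-, hv⟩
    have h1 : ENNReal.ofReal (1 / ((m + 1 : ℕ) : ℝ)) = ((m + 1 : ℕ) : ℝ≥0∞)⁻¹ := by
      rw [one_div, ENNReal.ofReal_inv_of_pos (by positivity), ENNReal.ofReal_natCast]
    rw [h1]
    refine hv.trans ?_
    rw [← measure_preimage_add volume (q : ℝ)]
    apply measure_mono
    rintro τ ⟨h2, h3, h4⟩
    refine ⟨⟨by linarith, by linarith⟩, _, h4, ?_⟩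
    ext l
    refine Fin.cases ?_ (fun i => ?_) l
    · rfl
    · change (b (v + fun i => (g i : ℝ)) i + (q + τ) * (v i + g i)) - (q + τ) * g i =
        (b (v + fun i => (g i : ℝ)) i + q * v i) + τ * v i
      ring

/-- the final numerical contradiction -/
theorem numericG {c C γ α ρ η ε L x1 x2 N S : ℝ} {d k : ℕ} (hc : 1 ≤ c) (hC : 0 ≤ C)
    (hγ : γ = d - c * (α - 1)) (hη : η = γ * Real.log 2 / (4 * (1 + C))) (hε : ε = γ / 4)
    (hρ : ρ = Real.exp (-η)) (hx1 : 0 < x1) (hx2 : 0 < x2)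
    (hL : L = c * ((d + 1) * Real.log 4 + α * Real.log 2) + C * (1 - Real.log x2) - Real.log x1)
    (hk : L < γ * Real.log 2 / 2 * k)
    (hN : x1 * ρ ^ k * ((2 : ℝ) ^ k) ^ d ≤ N)
    (hS1 : 1 ≤ S) (hS : S ≤ 4 ^ (d + 1) * (2 : ℝ) ^ (α * (k + 1)))
    (hD : Real.log N ≤ c * Real.log (S / ((2 ^ k : ℕ) : ℝ)) +
      ε * Real.log ((2 ^ k : ℕ) : ℝ) + C * (1 + Real.log (1 / (x2 * ρ ^ k)))) : False := by
  have hρ0 : 0 < ρ := by rw [hρ]; exact Real.exp_pos _
  have hlρ : Real.log (ρ ^ k) = -(k * η) := by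
    rw [Real.log_pow, hρ, Real.log_exp]; ring
  have h1 : Real.log x1 - k * η + d * (k * Real.log 2) ≤ Real.log N := by
    have h2 := Real.log_le_log (by positivity) hN
    rw [Real.log_mul (by positivity) (by positivity), Real.log_mul hx1.ne' (by positivity), hlρ,
      Real.log_pow, Real.log_pow] at h2
    linarith
  have hlk : Real.log ((2 ^ k : ℕ) : ℝ) = k * Real.log 2 := by
    push_cast
    rw [Real.log_pow]
  have h2 : Real.log (S / ((2 ^ k : ℕ) : ℝ)) ≤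
      (d + 1) * Real.log 4 + α * (k + 1) * Real.log 2 - k * Real.log 2 := by
    rw [Real.log_div (by linarith) (by positivity)]
    have h3 := Real.log_le_log (by linarith) hS
    rw [Real.log_mul (by positivity) (by positivity), Real.log_pow,
      Real.log_rpow (by norm_num)] at h3
    push_cast at h3 ⊢
    rw [Real.log_pow]
    linarith
  have h3 : Real.log (1 / (x2 * ρ ^ k)) = -Real.log x2 + k * η := by
    rw [one_div, Real.log_inv, Real.log_mul hx2.ne' (by positivity), hlρ]; ring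
  rw [h3, hlk] at hD
  have h4 : c * Real.log (S / ((2 ^ k : ℕ) : ℝ)) ≤
      c * ((d + 1) * Real.log 4 + α * (k + 1) * Real.log 2 - k * Real.log 2) :=
    mul_le_mul_of_nonneg_left h2 (by linarith)
  have h5 : (1 + C) * η = γ * Real.log 2 / 4 := by
    rw [hη]
    have : (1 + C) ≠ 0 := by linarith
    field_simp
  have h6 : γ * Real.log 2 * k ≤ k * ((1 + C) * η) + ε * (k * Real.log 2) + L := by
    rw [hL, hγ]
    nlinarith
  rw [h5, hε] at h6
  nlinarith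

/-- the counting inequality with losses implies the lower bound for the dimension -/
theorem haus_core (d : ℕ) (c : ℝ) (hc : 1 ≤ c)
    (hDense : ∀ c' : ℝ, c < c' → ∀ ε : ℝ, 0 < ε → ∃ C : ℝ, 0 ≤ C ∧ ∀ (n : ℕ) (Ω : Type)
      [Fintype Ω] [Nonempty Ω] (A D : Ω → Fin d → ℝ), IsFam n D →
      ∀ (E : Ω → Finset (Fin n)) (l : ℝ), 0 < l →
      (∀ ω, l * n ≤ ((E ω).card : ℝ)) →
      Real.log (Fintype.card Ω) ≤
        c' * Real.log ((∑ j : Fin n,
          (((Finset.univ.filter fun ω => j ∈ E ω).image (cell A D j)).card : ℝ)) / n) +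
        ε * Real.log n + C * (1 + Real.log (1 / l)))
    (U K : Set (EuclideanSpace ℝ (Fin (d + 1))))
    (hK : ∀ e ∈ U, ‖e‖ = 1 ∧ ∃ a : EuclideanSpace ℝ (Fin (d + 1)),
      0 < volume {t : ℝ | a + t • e ∈ K})
    (hU : (volume : Measure (EuclideanSpace ℝ (Fin (d + 1)))).toSphere
      {e : Metric.sphere (0 : EuclideanSpace ℝ (Fin (d + 1))) 1 |
        (e : EuclideanSpace ℝ (Fin (d + 1))) ∈ U} ≠ 0) :
    ENNReal.ofReal (1 + d / c) ≤ dimH K := by
  by_contra hcon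
  rw [not_le] at hcon
  obtain ⟨α, hα1, hα2⟩ := ENNReal.lt_iff_exists_nnreal_btwn.1 hcon
  have hc0 : (0 : ℝ) < c := by linarith
  have hα3 : (α : ℝ) < 1 + d / c := by
    have h1 : ENNReal.ofReal (α : ℝ) < ENNReal.ofReal (1 + d / c) := by
      rwa [ENNReal.ofReal_coe_nnreal]
    exact (ENNReal.ofReal_lt_ofReal_iff (by positivity)).1 h1
  -- the exponent `c'`
  obtain ⟨γ0, hγ0⟩ : ∃ γ0 : ℝ, γ0 = d - c * (α - 1) := ⟨_, rfl⟩
  have hγ0pos : 0 < γ0 := by
    rw [hγ0]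
    have h1 : ((α : ℝ) - 1) * c < d := by
      rw [← lt_div_iff₀ hc0]
      linarith
    linarith
  obtain ⟨c', hc'⟩ : ∃ c' : ℝ, c' = c + γ0 / (2 * (α + 1)) := ⟨_, rfl⟩
  have hα0 : (0 : ℝ) ≤ α := NNReal.coe_nonneg α
  have hcc' : c < c' := by
    rw [hc']
    have : 0 < γ0 / (2 * ((α : ℝ) + 1)) := by positivity
    linarith
  have hc'1 : 1 ≤ c' := by linarith
  obtain ⟨γ, hγ⟩ : ∃ γ : ℝ, γ = d - c' * (α - 1) := ⟨_, rfl⟩
  have hγpos : 0 < γ := by
    have h1 : γ = γ0 - γ0 / (2 * ((α : ℝ) + 1)) * (α - 1) := by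
      rw [hγ, hc', hγ0]; ring
    have h2 : γ0 / (2 * ((α : ℝ) + 1)) * (α - 1) ≤ γ0 / 2 := by
      rw [div_mul_eq_mul_div, div_le_div_iff₀ (by positivity) (by norm_num)]
      nlinarith
    linarith
  obtain ⟨ε, hε⟩ : ∃ ε : ℝ, ε = γ / 4 := ⟨_, rfl⟩
  obtain ⟨C, hC0, hC⟩ := hDense c' hcc' ε (by rw [hε]; positivity)
  have hlog2 : 0 < Real.log 2 := Real.log_pos (by norm_num)
  obtain ⟨η, hη⟩ : ∃ η : ℝ, η = γ * Real.log 2 / (4 * (1 + C)) := ⟨_, rfl⟩
  have hη0 : 0 < η := by rw [hη]; positivity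
  obtain ⟨ρ, hρ⟩ : ∃ ρ : ℝ, ρ = Real.exp (-η) := ⟨_, rfl⟩
  have hρ0 : 0 < ρ := by rw [hρ]; exact Real.exp_pos _
  have hρ1 : ρ < 1 := by
    rw [hρ, Real.exp_lt_one_iff]
    linarith
  obtain ⟨g, h0, V, B, y2, hy2pos, hV01, hVpos, hVK⟩ := slopesG d U K hK hU
  have hVfin : volume V ≠ ⊤ := by
    have h1 : V ⊆ Set.Icc (0 : Fin d → ℝ) 1 := fun v hv =>
      ⟨fun i => (hV01 v hv i).1, fun i => (hV01 v hv i).2⟩
    refine ne_top_of_le_ne_top ?_ (measure_mono h1)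
    rw [Real.volume_Icc_pi]
    simp
  obtain ⟨y1, hy1⟩ : ∃ y : ℝ, y = (volume V).toReal := ⟨_, rfl⟩
  have hy1pos : 0 < y1 := by rw [hy1]; exact ENNReal.toReal_pos hVpos hVfin
  have hy1V : ENNReal.ofReal y1 ≤ volume V := by rw [hy1]; exact ENNReal.ofReal_toReal_le
  have h1ρ : 0 < 1 - ρ := by linarith
  obtain ⟨x1, hx1⟩ : ∃ x : ℝ, x = y1 * (1 - ρ) / 2 := ⟨_, rfl⟩
  obtain ⟨x2, hx2⟩ : ∃ x : ℝ, x = y2 * (1 - ρ) / 2 := ⟨_, rfl⟩
  have hx1pos : 0 < x1 := by rw [hx1]; positivity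
  have hx2pos : 0 < x2 := by rw [hx2]; positivity
  obtain ⟨L, hL⟩ : ∃ L : ℝ, L = c' * ((d + 1) * Real.log 4 + α * Real.log 2) +
    C * (1 - Real.log x2) - Real.log x1 := ⟨_, rfl⟩
  obtain ⟨k0, hk0⟩ : ∃ k0 : ℕ, L < γ * Real.log 2 / 2 * k0 := by
    have hpos : 0 < γ * Real.log 2 / 2 := by positivity
    obtain ⟨m, hm⟩ := exists_nat_gt (L / (γ * Real.log 2 / 2))
    refine ⟨m, ?_⟩
    rw [div_lt_iff₀ hpos] at hm
    linarith
  obtain ⟨t, κ, ht1, ht2, ht3, ht4⟩ := cover (shr d g '' K) α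
    ((dimH_shr d g K).trans_lt hα1) k0
  let E0 : (Fin d → ℝ) → Set ℝ := fun v => {τ : ℝ | (0 ≤ τ ∧ τ < 1) ∧
        pt d (h0 + τ) (fun i => B v i + τ * v i) ∈ shr d g '' K}
  let E : ℕ → (Fin d → ℝ) → Set ℝ := fun k v => {τ | (0 ≤ τ ∧ τ < 1) ∧
    ∃ i, κ i = k ∧ pt d (h0 + τ) (fun l => B v l + τ * v l) ∈ t i}
  have hcovE : ∀ v ∈ V, E0 v ⊆ ⋃ k, E k v := by
    intro v hv τ hτ
    obtain ⟨i, hi⟩ := Set.mem_iUnion.1 (ht1 hτ.2)
    exact Set.mem_iUnion.2 ⟨κ i, hτ.1, i, rfl, hi⟩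
  obtain ⟨k, hk⟩ := pigeon volume V (fun k => {v | v ∈ V ∧
    ENNReal.ofReal (x2 * ρ ^ k) ≤ volume (E k v)}) (by
      intro v hv
      obtain ⟨k, hk⟩ := pigeon volume (E0 v) (fun k => E k v) (hcovE v hv) y2 ρ
        hy2pos hρ0 hρ1 (hVK v hv)
      rw [← hx2] at hk
      exact Set.mem_iUnion.2 ⟨k, hv, hk⟩) y1 ρ hy1pos hρ0 hρ1 hy1V
  rw [← hx1] at hk
  have hx1k : 0 < x1 * ρ ^ k := by positivity
  have hx2k : 0 < x2 * ρ ^ k := by positivity
  -- `k0 ≤ k`
  have hkk0 : k0 ≤ k := by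
    have hne : ({v | v ∈ V ∧ ENNReal.ofReal (x2 * ρ ^ k) ≤ volume (E k v)} :
        Set (Fin d → ℝ)).Nonempty := by
      apply nonempty_of_measure_ne_zero (μ := volume)
      intro h
      rw [h, nonpos_iff_eq_zero, ENNReal.ofReal_eq_zero] at hk
      linarith
    obtain ⟨v, hv, hvE⟩ := hne
    have hne2 : (E k v).Nonempty := by
      apply nonempty_of_measure_ne_zero (μ := volume)
      intro h
      rw [h, nonpos_iff_eq_zero, ENNReal.ofReal_eq_zero] at hvE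
      linarith
    obtain ⟨τ, -, i, hi, -⟩ := hne2
    rw [← hi]
    exact ht2 i
  -- the sets of scale `k`
  have hfin : {i : ℕ | κ i = k}.Finite := by
    by_contra hinf
    obtain ⟨m, hm⟩ := exists_nat_gt ((2 : ℝ) ^ ((α : ℝ) * (k + 1)))
    obtain ⟨S, hS1, hS2⟩ := Set.Infinite.exists_subset_card_eq hinf m
    have h1 := ht4 k S (fun i hi => hS1 hi)
    rw [hS2] at h1
    linarith
  have hI : ∀ i, i ∈ hfin.toFinset ↔ κ i = k := by
    intro i
    rw [Set.Finite.mem_toFinset]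
    rfl
  obtain ⟨Ω, _, _, A, D, F, hfam, hF, hcard, hS1, hS2⟩ := discrete d k h0
    {v | v ∈ V ∧ ENNReal.ofReal (x2 * ρ ^ k) ≤ volume (E k v)} (fun v hv => hV01 v hv.1) B t
    hfin.toFinset (fun i hi x hx y hy => by
      have h1 := ht3 i x hx y hy
      rwa [(hI i).1 hi] at h1) (E k)
    (fun v _ τ hτ => ⟨hτ.1, by
      obtain ⟨i, hi1, hi2⟩ := hτ.2
      exact ⟨i, (hI i).2 hi1, hi2⟩⟩) (x1 * ρ ^ k) (x2 * ρ ^ k) hx1k hx2k hk
    (fun v hv => hv.2)
  have hDk := hC (2 ^ k) Ω A D hfam F (x2 * ρ ^ k) hx2k hF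
  have hIcard := ht4 k hfin.toFinset fun i hi => (hI i).1 hi
  refine numericG hc'1 hC0 hγ hη hε hρ hx1pos hx2pos hL ?_ hcard hS1 (hS2.trans ?_) hDk
  · refine hk0.trans_le (mul_le_mul_of_nonneg_left ?_ (by positivity))
    exact_mod_cast hkk0
  · exact mul_le_mul_of_nonneg_left hIcard (by positivity)

end Pool.Agent.Y674.HK
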