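import Pool.Agent.Y254.HK.StmG
import Pool.Agent.Y674.HK.Haus

/-!
# Hausdorff dimension of sets with thick lines in many directions
-/

set_option autoImplicit false

namespace Pool.Agent.Y674.HK

theorem t_hausg : Pool.Agent.Y254HK.S_HAUSG :=
  fun d c hc hD U K hK hU => haus_core d c hc hD U K hK hU

end Pool.Agent.Y674.HK
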